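import Pool.Agent.R862.GU.Main

/-!
MP_69376a_ag, Q1: every nondegenerate `(a, b)`-geproci set with `3 ≤ a ≤ b` (so every nontrivial
geproci set) has unexpected cones of degrees `a` and `b`.
-/

set_option autoImplicit false

open scoped LinearAlgebra.Projectivization
open Pool.Agent.R862.GU

namespace Pool.Agent.Results.MP_69376a_ag.UnexpectedCones

universe u

/-- Let `Z` be an `(a, b)`-geproci set in `ℙ^3` over an infinite field, not contained in a plane.
Then `Z` satisfies `C(d)` for all `d` with `a ≤ d ≤ a + b - 3`. In particular, if `3 ≤ a`, then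
`Z` satisfies both `C(a)` and `C(b)`. -/
theorem result (K : Type u) [Field K] [Infinite K] (a b : ℕ) (Z : Set (ℙ K (Fin 4 → K)))
    (hZ : IsGeproci a b Z) (hnd : ¬ IsDegenerate Z) :
    (3 ≤ a → HasUnexpectedCone a Z ∧ HasUnexpectedCone b Z) ∧
      ∀ d : ℕ, a ≤ d → d + 3 ≤ a + b → HasUnexpectedCone d Z := by
  have key : ∀ d : ℕ, a ≤ d → d + 3 ≤ a + b → HasUnexpectedCone d Z :=
    fun d h1 h2 => unexpected hZ hnd h1 h2
  have hab : a ≤ b := hZ.2.1
  exact ⟨fun h3 => ⟨key a le_rfl (by omega), key b hab (by omega)⟩, key⟩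

end Pool.Agent.Results.MP_69376a_ag.UnexpectedCones
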